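import Pool.Agent.H99.CE.Targets

/-!
# Row CDC: decomposition at the first long excursion below the interface (helper79)
-/

set_option autoImplicit false

open MeasureTheory ProbabilityTheory Filter Topology
open scoped ENNReal
open Pool.Agent.H95 Pool.Agent.H95.Cop Pool.Agent.H96.Cop Pool.Agent.H99.CE

namespace Pool.Agent.H79.CRX

lemma sum_inj {α β : Type} [DecidableEq β] (A : Finset α) (B : Finset β) (f : α → β)
    (F : α → ℝ≥0∞) (G : β → ℝ≥0∞) (h1 : ∀ a ∈ A, f a ∈ B)
    (h2 : ∀ a ∈ A, ∀ a' ∈ A, f a = f a' → a = a') (h3 : ∀ a ∈ A, F a ≤ G (f a)) :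
    ∑ a ∈ A, F a ≤ ∑ b ∈ B, G b := by
  calc ∑ a ∈ A, F a ≤ ∑ a ∈ A, G (f a) := Finset.sum_le_sum h3
    _ = ∑ b ∈ A.image f, G b := by
        rw [Finset.sum_image]
        intro a ha a' ha' h
        exact h2 a ha a' ha' h
    _ ≤ ∑ b ∈ B, G b := by
        apply Finset.sum_le_sum_of_subset
        intro b hb
        rw [Finset.mem_image] at hb
        obtain ⟨a, ha, rfl⟩ := hb
        exact h1 a ha

lemma reidx (e S N : ℕ) (he : e ≤ S) (hN : S < N) (f : ℕ → ℕ → ℝ≥0∞) :
    ∑ t ∈ Finset.range (S - e + 1), ∑ m ∈ Finset.Icc 1 (S - e),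
      (if t + m ≤ S - e then f (t + e) (t + m + e) else 0) ≤
    ∑ u ∈ Finset.range N, ∑ v ∈ Finset.range N,
      (if e ≤ u ∧ v ≤ S then f u v else 0) := by
  apply sum_inj _ _ (fun t => t + e)
  · intro t ht
    rw [Finset.mem_range] at ht ⊢
    omega
  · intro a _ b _ h
    omega
  · intro t ht
    rw [← Finset.sum_filter, ← Finset.sum_filter]
    apply sum_inj _ _ (fun m => t + m + e)
    · intro m hm
      rw [Finset.mem_filter, Finset.mem_Icc] at hm
      rw [Finset.mem_filter, Finset.mem_range]
      omega
    · intro a _ b _ h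
      omega
    · intro m _
      exact le_rfl

lemma sum_later (i j : ℕ) (F : ℕ → ℝ≥0∞) :
    ∑ b ∈ Finset.range (j + 1), (if i < b then F b else 0) ≤
    ∑ D ∈ Finset.Icc 1 j, (if i + D ≤ j then F (i + D) else 0) := by
  rw [← Finset.sum_filter, ← Finset.sum_filter]
  apply sum_inj _ _ (fun b => b - i)
  · intro b hb
    rw [Finset.mem_filter, Finset.mem_range] at hb
    rw [Finset.mem_filter, Finset.mem_Icc]
    omega
  · intro a ha b hb h
    rw [Finset.mem_filter, Finset.mem_range] at ha hb
    omega
  · intro b hb
    rw [Finset.mem_filter, Finset.mem_range] at hb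
    have : i + (b - i) = b := by omega
    rw [this]

/-- one start `e`, one end `r` -/
lemma step (hPFD : T_PFD) (K : PMF ℕ) (B k : ℕ) (g : ℕ → ℝ≥0∞) (hk : 1 ≤ k)
    (hg : ∀ D m : ℕ, 1 ≤ D → k < m → (D - 1) * k < m → m < (D + 1) * k → pk K m * 2⁻¹ ≤ g D)
    (j e r : ℕ) (hr : r < k) (hej : e ≤ j * k + r) (x : ℕ → ℝ) :
    PF (w1 K B) (j * k + r - e) (shift e x) ≤ PF (w0 K B k) (j * k + r - e) (shift e x) +
      ∑ i ∈ Finset.range (j + 1), ∑ D ∈ Finset.Icc 1 j, (if i + D ≤ j then
        (∑ r1 ∈ Finset.range k, (if e ≤ i * k + r1 then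
          PF (w0 K B k) (i * k + r1 - e) (shift e x) * ex (i * k + r1) ((i + 1) * k) x else 0)) *
        (g D * ex ((i + 1) * k) ((i + D) * k) x * ∑ e2 ∈ Finset.range k,
          (if e2 ≤ (j - i - D) * k + r then ex 0 e2 (shift ((i + D) * k) x) *
            PF (w1 K B) ((j - i - D) * k + r - e2) (shift e2 (shift ((i + D) * k) x)) else 0))
        else 0) := by
  set S := j * k + r with hS
  have hSN : S < (j + 1) * k := by rw [add_mul, one_mul]; omega
  set w' : ℕ → (ℕ → ℝ) → ℝ≥0∞ := fun m x => if k < m then wb K m x else 0 with hw'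
  have hw1 : (fun n x => w0 K B k n x + w' n x) = w1 K B := by
    funext n y
    simp only [hw', w0, w1]
    by_cases h : n ≤ k
    · rw [if_pos h, if_neg (by omega), add_zero]
    · rw [if_neg h, if_pos (by omega), add_zero]
  have h1 := hPFD (w0 K B k) w' (S - e) (shift e x)
  rw [hw1] at h1
  refine h1.trans (add_le_add le_rfl ?_)
  -- positions
  set f : ℕ → ℕ → ℝ≥0∞ := fun u v => if u + k < v then PF (w0 K B k) (u - e) (shift e x) *
    (pk K (v - u) * 2⁻¹ * ex u v x * PF (w1 K B) (S - v) (shift v x)) else 0 with hf
  have h2 : ∀ t ∈ Finset.range (S - e + 1), ∀ m ∈ Finset.Icc 1 (S - e),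
      (if t + m ≤ S - e then PF (w0 K B k) t (shift e x) * (w' m (shift t (shift e x)) *
        PF (w1 K B) (S - e - t - m) (shift (t + m) (shift e x))) else 0) =
      (if t + m ≤ S - e then f (t + e) (t + m + e) else 0) := by
    intro t _ m _
    split_ifs with h
    · simp only [hf, hw']
      by_cases hkm : k < m
      · rw [if_pos hkm, if_pos (by omega)]
        have e1 : t + e - e = t := by omega
        have e2 : t + m + e - (t + e) = m := by omega
        have e3 : S - e - t - m = S - (t + m + e) := by omega
        rw [e1, e2, e3, shift_shift, shift_shift]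
        congr 2
        simp only [wb]
        rw [ex_shift]
        congr 2
        · omega
        · omega
      · rw [if_neg hkm, if_neg (by omega)]
        simp
    · rfl
  rw [Finset.sum_congr rfl (fun t ht => Finset.sum_congr rfl (h2 t ht))]
  refine (reidx e S ((j + 1) * k) hej hSN f).trans ?_
  rw [sum_cells]
  apply Finset.sum_le_sum
  intro i hi
  rw [Finset.mem_range] at hi
  have h3 : ∀ r1 ∈ Finset.range k, ∑ v ∈ Finset.range ((j + 1) * k),
      (if e ≤ i * k + r1 ∧ v ≤ S then f (i * k + r1) v else 0) ≤
      ∑ D ∈ Finset.Icc 1 j, (if i + D ≤ j then (if e ≤ i * k + r1 then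
          PF (w0 K B k) (i * k + r1 - e) (shift e x) * ex (i * k + r1) ((i + 1) * k) x else 0) *
        (g D * ex ((i + 1) * k) ((i + D) * k) x * ∑ e2 ∈ Finset.range k,
          (if e2 ≤ (j - i - D) * k + r then ex 0 e2 (shift ((i + D) * k) x) *
            PF (w1 K B) ((j - i - D) * k + r - e2) (shift e2 (shift ((i + D) * k) x)) else 0))
        else 0) := by
    intro r1 hr1
    rw [Finset.mem_range] at hr1
    rw [sum_cells]
    have h4 := sum_later i j (fun b => (if e ≤ i * k + r1 then
          PF (w0 K B k) (i * k + r1 - e) (shift e x) * ex (i * k + r1) ((i + 1) * k) x else 0) *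
        (g (b - i) * ex ((i + 1) * k) (b * k) x * ∑ e2 ∈ Finset.range k,
          (if e2 ≤ (j - b) * k + r then ex 0 e2 (shift (b * k) x) *
            PF (w1 K B) ((j - b) * k + r - e2) (shift e2 (shift (b * k) x)) else 0)))
    have h5 : ∀ D ∈ Finset.Icc 1 j, (if i + D ≤ j then (fun b => (if e ≤ i * k + r1 then
          PF (w0 K B k) (i * k + r1 - e) (shift e x) * ex (i * k + r1) ((i + 1) * k) x else 0) *
        (g (b - i) * ex ((i + 1) * k) (b * k) x * ∑ e2 ∈ Finset.range k,
          (if e2 ≤ (j - b) * k + r then ex 0 e2 (shift (b * k) x) *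
            PF (w1 K B) ((j - b) * k + r - e2) (shift e2 (shift (b * k) x)) else 0))) (i + D)
          else 0) = (if i + D ≤ j then (if e ≤ i * k + r1 then
          PF (w0 K B k) (i * k + r1 - e) (shift e x) * ex (i * k + r1) ((i + 1) * k) x else 0) *
        (g D * ex ((i + 1) * k) ((i + D) * k) x * ∑ e2 ∈ Finset.range k,
          (if e2 ≤ (j - i - D) * k + r then ex 0 e2 (shift ((i + D) * k) x) *
            PF (w1 K B) ((j - i - D) * k + r - e2) (shift e2 (shift ((i + D) * k) x)) else 0))
        else 0) := by
      intro D _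
      simp only
      have e1 : i + D - i = D := by omega
      rw [e1, Nat.sub_sub]
    rw [Finset.sum_congr rfl h5] at h4
    refine le_trans ?_ h4
    apply Finset.sum_le_sum
    intro b hb
    rw [Finset.mem_range] at hb
    have hs1 : i * k + r1 < (i + 1) * k := by rw [add_mul, one_mul]; omega
    by_cases hib : i < b
    · rw [if_pos hib]
      have hb1 : (i + 1) * k ≤ b * k := Nat.mul_le_mul_right k hib
      have hb3 : (b + 1) * k = b * k + k := by ring
      rw [Finset.mul_sum, Finset.mul_sum]
      apply Finset.sum_le_sum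
      intro e2 he2
      rw [Finset.mem_range] at he2
      by_cases hc : e ≤ i * k + r1 ∧ b * k + e2 ≤ S
      · rw [if_pos hc, if_pos hc.1]
        have hbj : b * k ≤ j * k := Nat.mul_le_mul_right k (by omega)
        have e6 : (j - b) * k = j * k - b * k := Nat.sub_mul _ _ _
        rw [if_pos (by omega)]
        simp only [hf]
        split_ifs with hd
        · have hgg : pk K (b * k + e2 - (i * k + r1)) * 2⁻¹ ≤ g (b - i) := by
            have e3 : (b - i - 1) * k = b * k - (i + 1) * k := by
              rw [← Nat.sub_mul]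
              congr 1
            have e4 : (b - i + 1) * k = b * k + k - i * k := by
              have : b - i + 1 = b + 1 - i := by omega
              rw [this, Nat.sub_mul, hb3]
            apply hg (b - i) (b * k + e2 - (i * k + r1)) (by omega) (by omega)
            · omega
            · omega
          have e4 : ex (i * k + r1) (b * k + e2) x = ex (i * k + r1) ((i + 1) * k) x *
              ex ((i + 1) * k) (b * k) x * ex 0 e2 (shift (b * k) x) := by
            rw [ex_shift, zero_add, ex_mul x hs1.le hb1, ex_mul x (hs1.le.trans hb1) (by omega)]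
            congr 1
            omega
          have e5 : PF (w1 K B) (S - (b * k + e2)) (shift (b * k + e2) x) =
              PF (w1 K B) ((j - b) * k + r - e2) (shift e2 (shift (b * k) x)) := by
            rw [shift_shift]
            congr 1
            · omega
            · congr 1
              omega
          rw [e4, e5]
          calc PF (w0 K B k) (i * k + r1 - e) (shift e x) *
              (pk K (b * k + e2 - (i * k + r1)) * 2⁻¹ * (ex (i * k + r1) ((i + 1) * k) x *
                ex ((i + 1) * k) (b * k) x * ex 0 e2 (shift (b * k) x)) *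
                PF (w1 K B) ((j - b) * k + r - e2) (shift e2 (shift (b * k) x)))
              ≤ PF (w0 K B k) (i * k + r1 - e) (shift e x) *
              (g (b - i) * (ex (i * k + r1) ((i + 1) * k) x *
                ex ((i + 1) * k) (b * k) x * ex 0 e2 (shift (b * k) x)) *
                PF (w1 K B) ((j - b) * k + r - e2) (shift e2 (shift (b * k) x))) := by
                gcongr
            _ = _ := by ring
        · exact zero_le
      · rw [if_neg hc]
        exact zero_le
    · rw [if_neg hib]
      have hb1 : b * k ≤ i * k := Nat.mul_le_mul_right k (by omega)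
      apply le_of_eq
      apply Finset.sum_eq_zero
      intro e2 he2
      rw [Finset.mem_range] at he2
      simp only [hf]
      rw [if_neg (show ¬ (i * k + r1 + k < b * k + e2) by omega)]
      simp
  refine (Finset.sum_le_sum h3).trans ?_
  rw [Finset.sum_comm]
  apply Finset.sum_le_sum
  intro D _
  split_ifs with h
  · rw [Finset.sum_mul]
  · simp

lemma rearr (k j : ℕ) (A : ℕ → ℕ → ℝ≥0∞) (c : ℕ → ℕ → ℝ≥0∞) (Q : ℕ → ℕ → ℕ → ℝ≥0∞) :
    ∑ e ∈ Finset.range k, ∑ r ∈ Finset.range k, ∑ i ∈ Finset.range (j + 1),
      ∑ D ∈ Finset.Icc 1 j, (if i + D ≤ j then A i e * (c i D * Q i D r) else 0) =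
    ∑ i ∈ Finset.range (j + 1), ∑ D ∈ Finset.Icc 1 j, (if i + D ≤ j then
      (∑ e ∈ Finset.range k, A i e) * (c i D * ∑ r ∈ Finset.range k, Q i D r) else 0) := by
  have h1 : ∀ e ∈ Finset.range k, ∑ r ∈ Finset.range k, ∑ i ∈ Finset.range (j + 1),
      ∑ D ∈ Finset.Icc 1 j, (if i + D ≤ j then A i e * (c i D * Q i D r) else 0) =
      ∑ i ∈ Finset.range (j + 1), ∑ D ∈ Finset.Icc 1 j, ∑ r ∈ Finset.range k,
        (if i + D ≤ j then A i e * (c i D * Q i D r) else 0) := by
    intro e _
    rw [Finset.sum_comm]
    apply Finset.sum_congr rfl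
    intro i _
    rw [Finset.sum_comm]
  rw [Finset.sum_congr rfl h1, Finset.sum_comm]
  apply Finset.sum_congr rfl
  intro i _
  rw [Finset.sum_comm]
  apply Finset.sum_congr rfl
  intro D _
  split_ifs with h
  · rw [Finset.sum_mul]
    apply Finset.sum_congr rfl
    intro e _
    rw [Finset.mul_sum, Finset.mul_sum]
  · simp

theorem pf_CDC (hPFD : T_PFD) : T_CDC := by
  intro K B k g hk hg p j x
  unfold NX
  -- one start and one end
  have h1 : ∀ e ∈ Finset.range k, ∀ r ∈ Finset.range k, (if e ≤ j * k + r then
      (if p = true then ex 0 e x else 1) * PF (w1 K B) (j * k + r - e) (shift e x) *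
        (if false = true then ex (j * k + r) ((j + 1) * k) x else 1) else 0) ≤
      (if e ≤ j * k + r then (if p = true then ex 0 e x else 1) *
        PF (w0 K B k) (j * k + r - e) (shift e x) *
        (if false = true then ex (j * k + r) ((j + 1) * k) x else 1) else 0) +
      ∑ i ∈ Finset.range (j + 1), ∑ D ∈ Finset.Icc 1 j, (if i + D ≤ j then
        (∑ r1 ∈ Finset.range k, (if e ≤ i * k + r1 then (if p = true then ex 0 e x else 1) *
          PF (w0 K B k) (i * k + r1 - e) (shift e x) * (if true = true then
            ex (i * k + r1) ((i + 1) * k) x else 1) else 0)) *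
        (g D * ex ((i + 1) * k) ((i + D) * k) x * ∑ e2 ∈ Finset.range k,
          (if e2 ≤ (j - i - D) * k + r then (if true = true then
            ex 0 e2 (shift ((i + D) * k) x) else 1) *
            PF (w1 K B) ((j - i - D) * k + r - e2) (shift e2 (shift ((i + D) * k) x)) *
            (if false = true then ex ((j - i - D) * k + r) ((j - i - D + 1) * k)
              (shift ((i + D) * k) x) else 1) else 0))
        else 0) := by
    intro e he r hr
    rw [Finset.mem_range] at he hr
    by_cases hej : e ≤ j * k + r
    · rw [if_pos hej, if_pos hej]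
      simp only [if_true, Bool.false_eq_true, if_false, mul_one]
      refine (mul_le_mul_right (step hPFD K B k g hk hg j e r hr hej x) _).trans ?_
      rw [mul_add]
      refine add_le_add le_rfl ?_
      rw [Finset.mul_sum]
      apply Finset.sum_le_sum
      intro i _
      rw [Finset.mul_sum]
      apply Finset.sum_le_sum
      intro D _
      by_cases hD : i + D ≤ j
      · rw [if_pos hD, if_pos hD, ← mul_assoc, Finset.mul_sum]
        refine mul_le_mul_left (le_of_eq ?_) _
        apply Finset.sum_congr rfl
        intro r1 _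
        split_ifs <;> ring
      · rw [if_neg hD, if_neg hD, mul_zero]
    · rw [if_neg hej]
      exact zero_le
  refine (Finset.sum_le_sum (fun e he => Finset.sum_le_sum (h1 e he))).trans ?_
  simp only [Finset.sum_add_distrib]
  refine add_le_add le_rfl (le_of_eq ?_)
  have h2 := rearr k j (fun i e => ∑ r1 ∈ Finset.range k, (if e ≤ i * k + r1 then
        (if p = true then ex 0 e x else 1) *
          PF (w0 K B k) (i * k + r1 - e) (shift e x) * (if true = true then
            ex (i * k + r1) ((i + 1) * k) x else 1) else 0))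
    (fun i D => g D * ex ((i + 1) * k) ((i + D) * k) x)
    (fun i D r => ∑ e2 ∈ Finset.range k,
          (if e2 ≤ (j - i - D) * k + r then (if true = true then
            ex 0 e2 (shift ((i + D) * k) x) else 1) *
            PF (w1 K B) ((j - i - D) * k + r - e2) (shift e2 (shift ((i + D) * k) x)) *
            (if false = true then ex ((j - i - D) * k + r) ((j - i - D + 1) * k)
              (shift ((i + D) * k) x) else 1) else 0))
  refine h2.trans ?_
  apply Finset.sum_congr rfl
  intro i _
  apply Finset.sum_congr rfl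
  intro D _
  rw [Finset.sum_comm (s := Finset.range k) (t := Finset.range k) (f := fun r e2 =>
          (if e2 ≤ (j - i - D) * k + r then (if true = true then
            ex 0 e2 (shift ((i + D) * k) x) else 1) *
            PF (w1 K B) ((j - i - D) * k + r - e2) (shift e2 (shift ((i + D) * k) x)) *
            (if false = true then ex ((j - i - D) * k + r) ((j - i - D + 1) * k)
              (shift ((i + D) * k) x) else 1) else 0))]
  simp only [if_true]

end Pool.Agent.H79.CRX
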